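import Pool.Agent.Lib.MP_a78e1f_lc.R.Iface

/-!
Module RCC: suprema of families of measurable sets.
-/

set_option autoImplicit false

universe u v w

open Cardinal Filter MeasureTheory

namespace Pool.Agent.Lib.MP_a78e1f_lc.H59

open Pool.Agent.Lib.MP_100a6c_lc
open Pool.Agent.Lib.MP_e6fef2_lc
open Pool.Agent.Lib.MP_6d445e_gt
open Pool.Agent.Lib.MP_a78e1f_lc

instance : IsProbabilityMeasure cm := by unfold cm; infer_instance

/-- Conditions along a partition can be combined. -/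
theorem ae_mix {A : Type u} [CompleteBooleanAlgebra A] {I : Type v} (a : I → A)
    (hd : ∀ i j, i ≠ j → a i ⊓ a j = ⊥) (P : I → Ult A → Prop)
    (h : ∀ i, ∀ᶠ g in ae A, a i ∈ g → P i g) : ∀ᶠ g in ae A, ∀ i, a i ∈ g → P i g := by
  choose D hD hX using h
  refine ⟨fun n => insert (⨆ i, a i)ᶜ (⋃ i, (fun d => a i ⊓ d) '' D i n), fun n => ?_,
    fun g hg i hi => ?_⟩
  · have h1 : sSup (⋃ i, (fun d => a i ⊓ d) '' D i n) = ⨆ i, a i := by
      rw [sSup_iUnion]
      refine iSup_congr fun i => ?_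
      rw [sSup_image, ← inf_sSup_eq, hD i n, inf_top_eq]
    rw [sSup_insert, h1, compl_sup_eq_top]
  · refine hX i g (fun n => ?_) hi
    obtain ⟨d, hd', hdg⟩ := hg n
    rcases hd' with rfl | hd'
    · exact absurd (g.mono (le_iSup a i) hi) (g.mem_compl.1 hdg)
    · rw [Set.mem_iUnion] at hd'
      obtain ⟨j, e, he, rfl⟩ := hd'
      dsimp only at hdg
      rw [g.mem_inf] at hdg
      have hji : j = i := by
        by_contra hne
        have h2 := g.inf _ _ hdg.1 hi
        rw [hd j i hne] at h2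
        exact g.bot h2
      subst hji
      exact ⟨e, he, hdg.2⟩

section

variable {A : Type u} [CompleteBooleanAlgebra A]

/-- Measure of a finite union. -/
noncomputable def mm {T : Type v} (E : T → Set (Pt A)) (s : Finset T) (g : Ult A) : ℝ :=
  cm.real (sec (⋃ t ∈ s, E t) g)

theorem fin_meas {T : Type v} {E : T → Set (Pt A)} (hE : ∀ t, MeasurableSet (E t))
    (s : Finset T) : MeasurableSet (⋃ t ∈ s, E t) :=
  Finset.measurableSet_biUnion s fun t _ => hE t

theorem sec_meas {E : Set (Pt A)} (hE : MeasurableSet E) (g : Ult A) : MeasurableSet (sec E g) :=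
  hE.preimage (measurable_const.prodMk measurable_id)

theorem mm_le_one {T : Type v} (E : T → Set (Pt A)) (s : Finset T) (g : Ult A) : mm E s g ≤ 1 :=
  measureReal_le_one

/-- The first step. -/
theorem step1 (hM : MeasStatement.{u}) {T : Type v} (E : T → Set (Pt A))
    (hE : ∀ t, MeasurableSet (E t)) {δ : ℝ} (hδ : 0 < δ) {a : A} (ha : a ≠ ⊥) :
    ∃ b, b ≠ ⊥ ∧ b ≤ a ∧ ∃ s : Finset T, ∀ s' : Finset T, s ⊆ s' →
      ∀ᶠ g in ae A, b ∈ g → mm E s' g ≤ mm E s g + δ := by
  by_contra hcon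
  push Not at hcon
  have step : ∀ b : A, b ≠ ⊥ → b ≤ a → ∀ s : Finset T, ∃ b', b' ≠ ⊥ ∧ b' ≤ b ∧ ∃ s' : Finset T,
      ∀ᶠ g in ae A, b' ∈ g → mm E s g + δ < mm E s' g := by
    intro b hb hba s
    obtain ⟨s', -, hs'⟩ := hcon b hb hba s
    have hms : MeasurableSet {g : Ult A | mm E s g + δ < mm E s' g} :=
      measurableSet_lt (((hM A).1 _ (fin_meas hE s)).add_const δ) ((hM A).1 _ (fin_meas hE s'))
    obtain ⟨c, hc⟩ := hms
    refine ⟨b ⊓ c, ?_, inf_le_left, s', ?_⟩
    · intro hbc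
      apply hs'
      filter_upwards [hc] with g hg
      rintro ⟨hbg, hlt⟩
      have h1 := g.inf _ _ hbg (hg.2 hlt)
      rw [hbc] at h1
      exact g.bot h1
    · filter_upwards [hc] with g hg hbg
      rw [g.mem_inf] at hbg
      exact hg.1 hbg.2
  have ind : ∀ k : ℕ, ∃ b : A, b ≠ ⊥ ∧ b ≤ a ∧ ∃ s : Finset T,
      ∀ᶠ g in ae A, b ∈ g → k * δ ≤ mm E s g := by
    intro k
    induction k with
    | zero =>
      refine ⟨a, ha, le_rfl, ∅, Filter.Eventually.of_forall fun g _ => ?_⟩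
      simp only [Nat.cast_zero, zero_mul]
      exact measureReal_nonneg
    | succ k ih =>
      obtain ⟨b, hb, hba, s, hs⟩ := ih
      obtain ⟨b', hb', hbb, s', hs'⟩ := step b hb hba s
      refine ⟨b', hb', hbb.trans hba, s', ?_⟩
      filter_upwards [hs, hs'] with g h1 h2 hg
      have h3 := h1 (g.mono hbb hg)
      have h4 := h2 hg
      push_cast
      linarith
  obtain ⟨k, hk⟩ := exists_nat_gt (1 / δ)
  obtain ⟨b, hb, -, s, hs⟩ := ind k
  obtain ⟨g, hg, h1⟩ := exists_of_ae hs hb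
  have h2 := h1 hg
  have h3 := mm_le_one E s g
  rw [div_lt_iff₀ hδ] at hk
  linarith

/-- A maximal antichain of good elements. -/
theorem step2 (hM : MeasStatement.{u}) {T : Type u} (E : T → Set (Pt A))
    (hE : ∀ t, MeasurableSet (E t)) {δ : ℝ} (hδ : 0 < δ) :
    ∃ (b : A → A) (s : A → Finset T), (∀ x y, x ≠ y → b x ⊓ b y = ⊥) ∧ (⨆ x, b x) = ⊤ ∧
      ∀ x, ∀ s' : Finset T, s x ⊆ s' →
        ∀ᶠ g in ae A, b x ∈ g → mm E s' g ≤ mm E (s x) g + δ := by
  classical
  set G : A → Prop := fun x => ∃ s : Finset T, ∀ s' : Finset T, s ⊆ s' →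
      ∀ᶠ g in ae A, x ∈ g → mm E s' g ≤ mm E s g + δ with hG
  set a : A → A := fun x => if G x then x else ⊥ with hadef
  obtain ⟨b, hba, hbd, hbs⟩ := H21.disj A A a
  have hsup : (⨆ x, a x) = ⊤ := by
    by_contra hne
    have h1 : (⨆ x, a x)ᶜ ≠ ⊥ := by
      intro h; apply hne; rw [← compl_compl (⨆ x, a x), h, compl_bot]
    obtain ⟨x, hx0, hxa, s, hs⟩ := step1 hM E hE hδ h1
    have h2 : a x = x := by
      simp only [hadef]
      rw [if_pos ⟨s, hs⟩]
    have h3 : x ≤ ⨆ x, a x := by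
      conv_lhs => rw [← h2]
      exact le_iSup a x
    apply hx0
    refine le_bot_iff.1 ?_
    calc x ≤ (⨆ x, a x) ⊓ (⨆ x, a x)ᶜ := le_inf h3 hxa
      _ = ⊥ := inf_compl_self _
  set S : A → Finset T := fun x => if h : G x then h.choose else ∅ with hS
  have hSx : ∀ x (hx : G x), S x = hx.choose := fun x hx => dif_pos hx
  refine ⟨b, S, hbd, by rw [hbs, hsup], fun x s' hs' => ?_⟩
  by_cases hx : G x
  · rw [hSx x hx] at hs' ⊢
    have h1 := hx.choose_spec s' hs'
    filter_upwards [h1] with g hg hbg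
    refine hg ?_
    have h2 := hba x
    simp only [hadef] at h2
    rw [if_pos hx] at h2
    exact g.mono h2 hbg
  · refine Filter.Eventually.of_forall fun g hbg => ?_
    have h2 := hba x
    simp only [hadef] at h2
    rw [if_neg hx] at h2
    exact absurd (g.mono h2 hbg) g.bot

end

/-- RCC: suprema of families of measurable sets. -/
theorem rcc (hX : MixStatement.{u}) (hM : MeasStatement.{u}) : RccStatement.{u} := by
  classical
  intro A _ T E hE
  have hδ : ∀ n : ℕ, (0:ℝ) < 1 / ((n:ℝ) + 1) := fun n => by positivity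
  choose b s hbd hbs hbm using fun n : ℕ => step2 hM E hE (hδ n)
  choose F hF hFE hF0 using fun n : ℕ => hX A A (b n) (fun x => ⋃ t ∈ s n x, E t) (hbd n)
    (fun x => fin_meas hE (s n x))
  -- almost every ultrafilter meets the partitions and the mixtures are correct
  have hpart : ∀ᶠ g in ae A, ∀ n, ∃ x, b n x ∈ g := by
    refine ae_all fun n => ?_
    filter_upwards [ae_iSup (b n)] with g hg
    rw [hbs n] at hg
    exact hg.1 g.top
  have hmix : ∀ᶠ g in ae A, ∀ n x, b n x ∈ g →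
      cm (sec ((⋃ t ∈ s n x, E t) \ F n) g) = 0 ∧ cm (sec (F n \ (⋃ t ∈ s n x, E t)) g) = 0 := by
    refine ae_all fun n => ?_
    exact ae_mix (b n) (hbd n) (fun x g => cm (sec ((⋃ t ∈ s n x, E t) \ F n) g) = 0 ∧
      cm (sec (F n \ (⋃ t ∈ s n x, E t)) g) = 0) (hFE n)
  have hmono : ∀ (s₁ s₂ : Finset T), s₁ ⊆ s₂ → ∀ g : Ult A,
      cm.real (sec ((⋃ t ∈ s₂, E t) \ ⋃ t ∈ s₁, E t) g) = mm E s₂ g - mm E s₁ g := by
    intro s₁ s₂ h g
    have h1 : sec ((⋃ t ∈ s₂, E t) \ ⋃ t ∈ s₁, E t) g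
        = sec (⋃ t ∈ s₂, E t) g \ sec (⋃ t ∈ s₁, E t) g := rfl
    rw [h1]
    refine measureReal_sdiff ?_ (sec_meas (fin_meas hE s₁) g)
    intro x hx
    exact Set.biUnion_subset_biUnion_left (fun t ht => h ht) hx
  refine ⟨⋃ n, F n, MeasurableSet.iUnion hF, fun t => ?_, fun q hq a ha => ?_⟩
  · -- `E t ⊆ F`
    have h1 : ∀ᶠ g in ae A, ∀ n x, b n x ∈ g →
        mm E (insert t (s n x)) g ≤ mm E (s n x) g + 1 / ((n:ℝ) + 1) := by
      refine ae_all fun n => ?_
      exact ae_mix (b n) (hbd n) (fun x g => mm E (insert t (s n x)) g ≤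
        mm E (s n x) g + 1 / ((n:ℝ) + 1)) fun x => hbm n x _ (Finset.subset_insert _ _)
    filter_upwards [hpart, hmix, h1] with g hp hm h1g
    have hle : ∀ n : ℕ, cm.real (sec (E t \ ⋃ n, F n) g) ≤ 1 / ((n:ℝ) + 1) := by
      intro n
      obtain ⟨x, hx⟩ := hp n
      have hsub : sec (E t \ ⋃ n, F n) g ⊆
          sec ((⋃ t' ∈ insert t (s n x), E t') \ ⋃ t' ∈ s n x, E t') g ∪
            sec ((⋃ t' ∈ s n x, E t') \ F n) g := by
        intro y hy
        by_cases h2 : (g, y) ∈ ⋃ t' ∈ s n x, E t'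
        · exact Or.inr ⟨h2, fun h3 => hy.2 (Set.mem_iUnion.2 ⟨n, h3⟩)⟩
        · refine Or.inl ⟨?_, h2⟩
          exact Set.mem_biUnion (Finset.mem_insert_self t (s n x)) hy.1
      have h2 : cm.real (sec ((⋃ t' ∈ s n x, E t') \ F n) g) = 0 := by
        rw [measureReal_def, (hm n x hx).1]; rfl
      calc cm.real (sec (E t \ ⋃ n, F n) g) ≤ _ := measureReal_mono hsub
        _ ≤ _ := measureReal_union_le _ _
        _ = mm E (insert t (s n x)) g - mm E (s n x) g + 0 := by
          rw [hmono _ _ (Finset.subset_insert _ _), h2]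
        _ ≤ _ := by linarith [h1g n x hx]
    have h0 : cm.real (sec (E t \ ⋃ n, F n) g) ≤ 0 := by
      refine le_of_forall_pos_lt_add fun ε hε => ?_
      obtain ⟨n, hn⟩ := exists_nat_one_div_lt hε
      rw [zero_add]
      exact lt_of_le_of_lt (hle n) hn
    have h3 : cm.real (sec (E t \ ⋃ n, F n) g) = 0 := le_antisymm h0 measureReal_nonneg
    exact (measureReal_eq_zero_iff).1 h3
  · -- minimality
    obtain ⟨n, hn⟩ := exists_nat_one_div_lt hq
    have h1 : ∃ x, a ⊓ b n x ≠ ⊥ := by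
      by_contra hcon
      push Not at hcon
      apply ha
      calc a = a ⊓ ⨆ x, b n x := by rw [hbs n, inf_top_eq]
        _ = ⨆ x, a ⊓ b n x := inf_iSup_eq _ _
        _ = ⊥ := by simp [hcon]
    obtain ⟨x, hx⟩ := h1
    refine ⟨a ⊓ b n x, hx, inf_le_left, s n x, ?_⟩
    -- the finite unions
    have h2 : ∀ᶠ g in ae A, ∀ (K : ℕ) (τ : Fin (K + 1) → A),
        (⨅ k ∈ (Finset.univ : Finset (Fin (K + 1))), b k (τ k)) ∈ g → b n x ∈ g →
          mm E (s n x ∪ Finset.univ.biUnion fun k : Fin (K + 1) => s k (τ k)) g ≤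
            mm E (s n x) g + 1 / ((n:ℝ) + 1) := by
      refine ae_all fun K => ?_
      refine ae_mix (fun τ : Fin (K + 1) → A =>
        ⨅ k ∈ (Finset.univ : Finset (Fin (K + 1))), b k (τ k)) ?_
        (fun τ g => b n x ∈ g →
          mm E (s n x ∪ Finset.univ.biUnion fun k : Fin (K + 1) => s k (τ k)) g ≤
            mm E (s n x) g + 1 / ((n:ℝ) + 1)) ?_
      · intro τ τ' hne
        obtain ⟨k, hk⟩ := Function.ne_iff.1 hne
        refine le_bot_iff.1 ?_
        calc _ ≤ b k (τ k) ⊓ b k (τ' k) := by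
              refine inf_le_inf ?_ ?_
              · exact (iInf_le _ k).trans (iInf_le _ (Finset.mem_univ k))
              · exact (iInf_le _ k).trans (iInf_le _ (Finset.mem_univ k))
          _ = ⊥ := hbd k _ _ hk
      · intro τ
        filter_upwards [hbm n x _ (Finset.subset_union_left (s₂ := Finset.univ.biUnion
          fun k : Fin (K + 1) => s k (τ k)))] with g hg _ hbg
        exact hg hbg
    filter_upwards [hpart, hmix, h2] with g hp hm h2g hbg
    rw [g.mem_inf] at hbg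
    choose τ hτ using hp
    -- the bound for the finite unions
    set Gk : ℕ → Set Cs := fun k => sec (⋃ t ∈ s k (τ k), E t) g with hGk
    set B : Set Cs := sec (⋃ t ∈ s n x, E t) g with hB
    have hfin : ∀ K : ℕ, cm ((⋃ k, ⋃ _ : k ≤ K, Gk k) \ B) ≤ ENNReal.ofReal (1 / ((n:ℝ) + 1)) := by
      intro K
      have h3 := h2g K (fun k => τ k) (by
        rw [g.mem_finset_iInf]
        exact fun k _ => hτ k) hbg.2
      have h4 : (⋃ k, ⋃ _ : k ≤ K, Gk k) \ B ⊆
          sec ((⋃ t ∈ s n x ∪ Finset.univ.biUnion fun k : Fin (K + 1) => s k (τ k), E t) \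
            ⋃ t ∈ s n x, E t) g := by
        rintro y ⟨hy, hyB⟩
        refine ⟨?_, hyB⟩
        simp only [Set.mem_iUnion] at hy
        obtain ⟨k, hk, hyk⟩ := hy
        simp only [hGk, sec, Set.mem_ofPred_eq, Set.mem_iUnion] at hyk
        obtain ⟨t, ht, hyt⟩ := hyk
        refine Set.mem_biUnion ?_ hyt
        refine Finset.mem_union_right _ ?_
        rw [Finset.mem_biUnion]
        exact ⟨⟨k, by omega⟩, Finset.mem_univ _, ht⟩
      refine (measure_mono h4).trans ?_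
      rw [ENNReal.le_ofReal_iff_toReal_le (measure_ne_top _ _) (hδ n).le]
      have h5 := hmono _ _ (Finset.subset_union_left (s₁ := s n x) (s₂ := Finset.univ.biUnion
          fun k : Fin (K + 1) => s k (τ k))) g
      rw [measureReal_def] at h5
      rw [h5]
      linarith
    have hall : cm ((⋃ k, Gk k) \ B) ≤ ENNReal.ofReal (1 / ((n:ℝ) + 1)) := by
      have h3 : (⋃ k, Gk k) \ B = ⋃ K, ((⋃ k, ⋃ _ : k ≤ K, Gk k) \ B) := by
        ext y
        simp only [Set.mem_sdiff, Set.mem_iUnion]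
        constructor
        · rintro ⟨⟨k, hk⟩, hB⟩
          exact ⟨k, ⟨k, le_rfl, hk⟩, hB⟩
        · rintro ⟨K, ⟨k, _, hk⟩, hB⟩
          exact ⟨⟨k, hk⟩, hB⟩
      have hdir : Monotone fun K : ℕ => (⋃ k, ⋃ _ : k ≤ K, Gk k) \ B := by
        intro K K' hK y hy
        refine ⟨?_, hy.2⟩
        have h4 := hy.1
        simp only [Set.mem_iUnion] at h4 ⊢
        obtain ⟨k, hk, hk'⟩ := h4
        exact ⟨k, hk.trans hK, hk'⟩
      rw [h3, hdir.measure_iUnion]
      exact iSup_le hfin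
    have hsub : sec ((⋃ n, F n) \ ⋃ t ∈ s n x, E t) g ⊆
        ((⋃ k, Gk k) \ B) ∪ ⋃ k, sec (F k \ (⋃ t ∈ s k (τ k), E t)) g := by
      rintro y ⟨hy, hyB⟩
      rw [Set.mem_iUnion] at hy
      obtain ⟨k, hk⟩ := hy
      by_cases h3 : (g, y) ∈ ⋃ t ∈ s k (τ k), E t
      · exact Or.inl ⟨Set.mem_iUnion.2 ⟨k, h3⟩, hyB⟩
      · exact Or.inr (Set.mem_iUnion.2 ⟨k, hk, h3⟩)
    have h3 : cm (sec ((⋃ n, F n) \ ⋃ t ∈ s n x, E t) g) ≤ ENNReal.ofReal (1 / ((n:ℝ) + 1)) := by
      refine (measure_mono hsub).trans ((measure_union_le _ _).trans ?_)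
      have h4 : cm (⋃ k, sec (F k \ (⋃ t ∈ s k (τ k), E t)) g) = 0 :=
        measure_iUnion_null fun k => (hm k (τ k) (hτ k)).2
      rw [h4, add_zero]
      exact hall
    rw [measureReal_def]
    refine lt_of_le_of_lt ?_ hn
    exact (ENNReal.le_ofReal_iff_toReal_le (measure_ne_top _ _) (hδ n).le).1 h3

end Pool.Agent.Lib.MP_a78e1f_lc.H59
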